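import Pool.Agent.W697.BP.Emb

set_option autoImplicit false
set_option linter.unusedSectionVars false

open Set
open Pool.Agent.Results.MP_a2dbe0_an.NoInvariantMeasure

namespace Pool.Agent.W697.BP

/-- Points with no empty word below the level. -/
def GA : Set E := {x | x ∈ W ∧ ∀ j < lev x, x.1 j ≠ D.g []}

/-- Points with an empty word below the level. -/
def GB : Set E := {x | x ∈ W ∧ ∃ j < lev x, x.1 j = D.g []}

/-- Points of `GB` all of whose neighbours are in `GB`. -/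
def GC : Set E := {x | x ∈ GB ∧ ∀ s, sg s x ∈ GB}

lemma meas_GA : MeasurableSet GA := by
  apply meas_W_and (fun n _ => {x : E | ∀ j < n, x.1 j ≠ D.g []})
  intro n t
  have : {x : E | ∀ j < n, x.1 j ≠ D.g []} =
      ⋂ j ∈ Finset.range n, {x : E | x.1 j ∈ ({D.g []} : Set D)ᶜ} := by
    ext x
    simp only [mem_ofPred_eq, Finset.mem_range, mem_iInter, mem_compl_iff,
      mem_singleton_iff, ne_eq]
  rw [this]
  exact Finset.measurableSet_biInter _ (fun j _ => meas_coord j _)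

lemma GB_eq : GB = W \ GA := by
  ext x
  constructor
  · rintro ⟨h1, j, hj, h2⟩
    exact ⟨h1, fun h => h.2 j hj h2⟩
  · rintro ⟨h1, h2⟩
    refine ⟨h1, ?_⟩
    by_contra hno
    push Not at hno
    exact h2 ⟨h1, hno⟩

lemma meas_GB : MeasurableSet GB := by
  rw [GB_eq]; exact meas_W.diff meas_GA

lemma meas_GC : MeasurableSet GC := by
  have : GC = GB ∩ ⋂ s, sg s ⁻¹' GB := by
    ext x
    simp only [GC, mem_ofPred_eq, mem_inter_iff, mem_iInter, mem_preimage]
  rw [this]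
  exact meas_GB.inter (MeasurableSet.iInter (fun s => sg_meas s meas_GB))

lemma pre_GA : Pre GA := by
  intro x _ y hy hl hxy hx
  exact ⟨hy, fun j hj => by rw [← hxy j (by omega)]; exact hx.2 j (by omega)⟩

lemma pre_GB : Pre GB := by
  intro x _ y hy hl hxy hx
  obtain ⟨j, hj, h⟩ := hx.2
  exact ⟨hy, j, by omega, by rw [← hxy j hj]; exact h⟩

lemma pre_GC : Pre GC := by
  intro x hxW y hy hl hxy hx
  refine ⟨pre_GB x hxW y hy hl hxy hx.1, fun s => ?_⟩
  obtain ⟨h1, h2, _⟩ := sg_W s hxW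
  obtain ⟨h4, h5, _⟩ := sg_W s hy
  refine pre_GB (sg s x) h1 (sg s y) h4 (by rw [h2, h5, hl]) ?_ (hx.2 s)
  intro j hj
  rw [h2] at hj
  change act s j (x.1 j) = act s j (y.1 j)
  rw [hxy j hj]

/-! ### Many copies of small sets -/

lemma meas_Gi {A G : Set E} (hA : MeasurableSet A) (hG : MeasurableSet G) :
    MeasurableSet (A ∩ G) := hA.inter hG

lemma two_Dn {G : Set E} (hG : Pre G) (mG : MeasurableSet G) (s : ℕ) :
    2 • cl (Dn (s + 1) ∩ G) ((meas_Dn _).inter mG) ≤ cl (Dn s ∩ G) ((meas_Dn _).inter mG) := by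
  have hsub : Dn (s + 1) ∩ G ⊆ Dn s ∩ G :=
    fun x hx => ⟨⟨hx.1.1, fun j hj => hx.1.2 j (by omega)⟩, hx.2⟩
  have h1 := cl_le ((meas_Dn (s + 1)).inter mG)
    (((meas_Dn s).inter mG).diff ((meas_Dn (s + 1)).inter mG)) (halfE hG s)
  have h2 := add_le_cl ((meas_Dn (s + 1)).inter mG)
    (((meas_Dn s).inter mG).diff ((meas_Dn (s + 1)).inter mG)) ((meas_Dn s).inter mG)
    disjoint_sdiff_right hsub sdiff_subset
  rw [two_nsmul]
  exact (add_le_add_right h1 _).trans h2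

lemma pow_Dn {G : Set E} (hG : Pre G) (mG : MeasurableSet G) (s : ℕ) :
    2 ^ s • cl (Dn s ∩ G) ((meas_Dn _).inter mG) ≤ cl (W ∩ G) (meas_W.inter mG) := by
  induction s with
  | zero =>
    rw [pow_zero, one_nsmul]
    exact cl_mono _ _ (fun x hx => ⟨hx.1.1, hx.2⟩)
  | succ s ih =>
    rw [pow_succ, mul_nsmul']
    refine le_trans ?_ ih
    exact nsmul_le_nsmul_right (two_Dn hG mG s) _

lemma pow_W1 {G : Set E} (hG : Pre G) (mG : MeasurableSet G) (s : ℕ) :
    2 ^ s • cl (W1 ∩ G) (meas_W1.inter mG) ≤ cl (W ∩ G) (meas_W.inter mG) := by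
  have h1 : cl (W1 ∩ G) (meas_W1.inter mG) ≤ 2 • cl (WE ∩ G) (meas_WE.inter mG) := by
    have h2 := cl_le_add (meas_W1.inter mG) (meas_WE.inter mG) (meas_WO.inter mG) (by
      rintro x ⟨⟨h1, h2⟩, h3⟩
      rcases Nat.mod_two_eq_zero_or_one (tv x) with h | h
      · exact Or.inl ⟨⟨h1, h2, h⟩, h3⟩
      · exact Or.inr ⟨⟨h1, h2, h⟩, h3⟩)
    have h3 := cl_le (meas_WO.inter mG) (meas_WE.inter mG) (WO_WE hG)
    rw [two_nsmul]
    exact h2.trans (add_le_add_right h3 _)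
  calc 2 ^ s • cl (W1 ∩ G) (meas_W1.inter mG)
      ≤ 2 ^ s • (2 • cl (WE ∩ G) (meas_WE.inter mG)) := nsmul_le_nsmul_right h1 _
    _ = 2 ^ (s + 1) • cl (WE ∩ G) (meas_WE.inter mG) := by rw [pow_succ, mul_nsmul']
    _ ≤ 2 ^ (s + 1) • cl (Dn (s + 1) ∩ G) ((meas_Dn _).inter mG) :=
        nsmul_le_nsmul_right (cl_le _ _ (WE_Dn hG (s + 1))) _
    _ ≤ cl (W ∩ G) (meas_W.inter mG) := pow_Dn hG mG (s + 1)

/-! ### The neighbours -/

lemma three_sg {A C : Set E} (hA : MeasurableSet A) (hC : MeasurableSet C)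
    (h : ∀ x ∈ A, ∃ s, sg s x ∈ C) : cl A hA ≤ 3 • cl C hC := by
  have hp : ∀ s, cl (sg s ⁻¹' C) (sg_meas s hC) ≤ cl C hC :=
    fun s => cl_le _ _ (sg_Em s (fun x hx => hx))
  have h1 := cl_le_add hA (sg_meas 0 hC) ((sg_meas 1 hC).union (sg_meas 2 hC)) (by
    intro x hx
    obtain ⟨s, hs⟩ := h x hx
    fin_cases s
    · exact Or.inl hs
    · exact Or.inr (Or.inl hs)
    · exact Or.inr (Or.inr hs))
  have h2 := cl_le_add ((sg_meas 1 hC).union (sg_meas 2 hC)) (sg_meas 1 hC) (sg_meas 2 hC)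
    subset_rfl
  have h3 : (3 : ℕ) • cl C hC = cl C hC + (cl C hC + cl C hC) := by
    rw [show (3 : ℕ) = 1 + 2 from rfl, add_nsmul, one_nsmul, two_nsmul]
  rw [h3]
  exact h1.trans (add_le_add (hp 0) (h2.trans (add_le_add (hp 1) (hp 2))))

lemma W1_split : cl W1 meas_W1 ≤
    4 • cl (W1 ∩ GA) (meas_W1.inter meas_GA) + cl (W1 ∩ GC) (meas_W1.inter meas_GC) := by
  have hm := meas_W1.inter (meas_GB.diff meas_GC)
  have h1 := cl_le_add meas_W1 (meas_W1.inter meas_GA)
    ((meas_W1.inter meas_GC).union hm) (by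
      intro x hx
      by_cases h1 : x ∈ GA
      · exact Or.inl ⟨hx, h1⟩
      · have h2 : x ∈ GB := by rw [GB_eq]; exact ⟨hx.1, h1⟩
        by_cases h3 : x ∈ GC
        · exact Or.inr (Or.inl ⟨hx, h3⟩)
        · exact Or.inr (Or.inr ⟨hx, h2, h3⟩))
  have h2 := cl_le_add ((meas_W1.inter meas_GC).union hm) (meas_W1.inter meas_GC) hm subset_rfl
  have h3 : cl (W1 ∩ (GB \ GC)) hm ≤ 3 • cl (W1 ∩ GA) (meas_W1.inter meas_GA) := by
    apply three_sg
    rintro x ⟨hx1, hx2, hx3⟩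
    have : ∃ s, sg s x ∉ GB := by
      by_contra hno
      push Not at hno
      exact hx3 ⟨hx2, hno⟩
    obtain ⟨s, hs⟩ := this
    obtain ⟨a1, a2, a3⟩ := sg_W s hx1.1
    refine ⟨s, ⟨a1, by rw [a3]; exact hx1.2⟩, ?_⟩
    by_contra hno
    apply hs
    rw [GB_eq]
    exact ⟨a1, hno⟩
  have h4 : (4 : ℕ) • cl (W1 ∩ GA) (meas_W1.inter meas_GA) =
      cl (W1 ∩ GA) (meas_W1.inter meas_GA) + 3 • cl (W1 ∩ GA) (meas_W1.inter meas_GA) := by
    rw [show (4 : ℕ) = 1 + 3 from rfl, add_nsmul, one_nsmul]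
  rw [h4]
  refine h1.trans ?_
  rw [add_assoc]
  refine add_le_add_right ?_ _
  refine h2.trans ?_
  rw [add_comm]
  exact add_le_add_left h3 _

/-- Many copies of the small points. -/
lemma W1_many : 16 • cl W1 meas_W1 ≤ cl A2 meas_A2 + cl Bi meas_Bi + cl W1 meas_W1 := by
  have h1 := nsmul_le_nsmul_right W1_split 16
  have h2 := pow_W1 pre_GA meas_GA 6
  have h3 := pow_W1 pre_GC meas_GC 4
  have h4 := cl_le_add (meas_W.inter meas_GA) meas_A2 (meas_W1.inter meas_GA) (by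
    rintro x ⟨hx, hx'⟩
    have ho := (isW_lev hx).one_le
    by_cases h : 2 ≤ tv x
    · exact Or.inr ⟨⟨hx, h⟩, hx'⟩
    · exact Or.inl ⟨hx, by omega, hx'.2⟩)
  have h5 := cl_le_add (meas_W.inter meas_GC) meas_Bi (meas_W1.inter meas_GC) (by
    rintro x ⟨hx, hx'⟩
    have ho := (isW_lev hx).one_le
    by_cases h : 2 ≤ tv x
    · exact Or.inr ⟨⟨hx, h⟩, hx'⟩
    · left
      have ht : tv x = 1 := by omega
      refine ⟨⟨hx, ht, hx'.1.2⟩, fun s => ?_⟩
      obtain ⟨a1, a2, a3⟩ := sg_W s hx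
      exact ⟨a1, by rw [a3, ht], (hx'.2 s).2⟩)
  have h6 := add_le_cl (meas_W1.inter meas_GA) (meas_W1.inter meas_GC) meas_W1 (by
    rw [Set.disjoint_left]
    rintro x ⟨_, h7⟩ ⟨_, h8⟩
    have := h8.1
    rw [GB_eq] at this
    exact this.2 h7) inter_subset_left inter_subset_left
  calc 16 • cl W1 meas_W1 ≤ 16 • (4 • cl (W1 ∩ GA) (meas_W1.inter meas_GA) +
        cl (W1 ∩ GC) (meas_W1.inter meas_GC)) := h1
    _ = 2 ^ 6 • cl (W1 ∩ GA) (meas_W1.inter meas_GA) +
        2 ^ 4 • cl (W1 ∩ GC) (meas_W1.inter meas_GC) := by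
        rw [nsmul_add, ← mul_nsmul']
        norm_num
    _ ≤ (cl A2 meas_A2 + cl (W1 ∩ GA) (meas_W1.inter meas_GA)) +
        (cl Bi meas_Bi + cl (W1 ∩ GC) (meas_W1.inter meas_GC)) :=
        add_le_add (h2.trans h4) (h3.trans h5)
    _ = (cl A2 meas_A2 + cl Bi meas_Bi) + (cl (W1 ∩ GA) (meas_W1.inter meas_GA) +
        cl (W1 ∩ GC) (meas_W1.inter meas_GC)) := by abel
    _ ≤ cl A2 meas_A2 + cl Bi meas_Bi + cl W1 meas_W1 := add_le_add_right h6 _

/-! ### Doubling of the interior points -/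

lemma Bi_two : 2 • cl Bi meas_Bi ≤ cl B meas_B := by
  have m0 := meas_Bi.inter (meas_Q 0)
  have m1 := meas_Bi.inter (meas_Q 1)
  have m2 := meas_Bi.inter (meas_Q 2)
  have n0 := meas_B.inter (meas_Q 0)
  have n1 := meas_B.inter (meas_Q 1)
  have n2 := meas_B.inter (meas_Q 2)
  have key : ∀ (a b c : Fin 3), a ≠ b → a ≠ c → b ≠ c →
      cl (Bi ∩ Q a) (meas_Bi.inter (meas_Q a)) + cl (Bi ∩ Q b) (meas_Bi.inter (meas_Q b)) ≤
        cl (B ∩ Q c) (meas_B.inter (meas_Q c)) := by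
    intro a b c hab hac hbc
    have hma := meas_Bi.inter (meas_Q a)
    have hmb := meas_Bi.inter (meas_Q b)
    have h1 := add_le_cl hma hmb (hma.union hmb)
      ((Q_disj hab).mono inter_subset_right inter_subset_right) subset_union_left
      subset_union_right
    refine h1.trans (cl_le _ _ (sg_Em c ?_))
    intro x hx
    have hxB : x ∈ Bi := by rcases hx with h | h <;> exact h.1
    have hxc : x ∉ Q c := by
      rcases hx with h | h
      · exact fun h' => Set.disjoint_left.1 (Q_disj hac) h.2 h'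
      · exact fun h' => Set.disjoint_left.1 (Q_disj hbc) h.2 h'
    exact ⟨hxB.2 c, edge hxB.1 (hxB.2 c) hxc⟩
  have k0 := key 1 2 0 (by decide) (by decide) (by decide)
  have k1 := key 0 2 1 (by decide) (by decide) (by decide)
  have k2 := key 0 1 2 (by decide) (by decide) (by decide)
  have s1 := cl_le_add meas_Bi m0 (m1.union m2) (by
    intro x h
    obtain ⟨a, ha⟩ := Q_cover x
    fin_cases a
    · exact Or.inl ⟨h, ha⟩
    · exact Or.inr (Or.inl ⟨h, ha⟩)
    · exact Or.inr (Or.inr ⟨h, ha⟩))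
  have s2 := cl_le_add (m1.union m2) m1 m2 subset_rfl
  have s3 : cl Bi meas_Bi ≤ cl (Bi ∩ Q 0) m0 + (cl (Bi ∩ Q 1) m1 + cl (Bi ∩ Q 2) m2) :=
    s1.trans (add_le_add_right s2 _)
  have t1 := add_le_cl n1 n2 (n1.union n2)
    ((Q_disj (by decide)).mono inter_subset_right inter_subset_right)
    subset_union_left subset_union_right
  have t2 := add_le_cl n0 (n1.union n2) meas_B (by
    rw [Set.disjoint_union_right]
    exact ⟨(Q_disj (by decide)).mono inter_subset_right inter_subset_right,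
      (Q_disj (by decide)).mono inter_subset_right inter_subset_right⟩) inter_subset_left
    (union_subset inter_subset_left inter_subset_left)
  calc 2 • cl Bi meas_Bi
      ≤ 2 • (cl (Bi ∩ Q 0) m0 + (cl (Bi ∩ Q 1) m1 + cl (Bi ∩ Q 2) m2)) :=
        nsmul_le_nsmul_right s3 2
    _ = (cl (Bi ∩ Q 1) m1 + cl (Bi ∩ Q 2) m2) + ((cl (Bi ∩ Q 0) m0 + cl (Bi ∩ Q 2) m2) +
        (cl (Bi ∩ Q 0) m0 + cl (Bi ∩ Q 1) m1)) := by rw [two_nsmul]; abel
    _ ≤ cl (B ∩ Q 0) n0 + (cl (B ∩ Q 1) n1 + cl (B ∩ Q 2) n2) :=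
        add_le_add k0 (add_le_add k1 k2)
    _ ≤ cl (B ∩ Q 0) n0 + cl ((B ∩ Q 1) ∪ (B ∩ Q 2)) (n1.union n2) := add_le_add_right t1 _
    _ ≤ cl B meas_B := t2

lemma BBi : cl (B \ Bi) (meas_B.diff meas_Bi) ≤ 3 • cl A2 meas_A2 := by
  apply three_sg
  rintro x ⟨hx, hxi⟩
  have hW2 : x ∈ W2 := by rw [B_eq] at hx; exact hx.1
  have : ∃ s, sg s x ∉ B := by
    by_contra hno
    push Not at hno
    exact hxi ⟨hx, hno⟩
  obtain ⟨s, hs⟩ := this
  refine ⟨s, ?_⟩
  by_contra hno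
  exact hs (B_eq ▸ ⟨sg_W2 s hW2, hno⟩)

/-- The space is paradoxical. -/
theorem two_univ : 2 • cl (univ : Set E) MeasurableSet.univ ≤ cl (univ : Set E) MeasurableSet.univ := by
  set ω := cl W1 meas_W1 with hω
  set α := cl A2 meas_A2 with hα
  set β := cl Bi meas_Bi with hβ
  set b := cl B meas_B with hb
  have hαω : α ≤ ω := cl_le _ _ A2_W1
  have hκω : cl Wᶜ meas_W.compl ≤ ω := cl_le _ _ K_W1
  have hγ : cl (B \ Bi) (meas_B.diff meas_Bi) ≤ 3 • ω := BBi.trans (nsmul_le_nsmul_right hαω 3)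
  have hbβ : b ≤ β + 3 • ω := by
    have := cl_le_add meas_B meas_Bi (meas_B.diff meas_Bi) (by
      intro x hx
      by_cases h : x ∈ Bi
      · exact Or.inl h
      · exact Or.inr ⟨hx, h⟩)
    exact this.trans (add_le_add_right hγ _)
  have h2β : 2 • β ≤ b := Bi_two
  have h16 : 16 • ω ≤ α + β + ω := W1_many
  -- upper bound
  have s1 := cl_le_add (MeasurableSet.univ (α := E)) meas_W.compl
    (meas_W1.union (meas_A2.union meas_B)) (by
    intro x _
    by_cases hx : x ∈ W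
    · have h1 := (isW_lev hx).one_le
      by_cases h2 : 2 ≤ tv x
      · exact Or.inr (Or.inl ⟨hx, h2⟩)
      · have h3 : tv x = 1 := by omega
        by_cases h4 : x ∈ A2
        · exact Or.inr (Or.inr (Or.inl h4))
        · exact Or.inr (Or.inr (Or.inr (B_eq ▸ ⟨⟨hx, h3⟩, h4⟩)))
    · exact Or.inl hx)
  have s2 := cl_le_add (meas_W1.union (meas_A2.union meas_B)) meas_W1 (meas_A2.union meas_B)
    subset_rfl
  have s3 := cl_le_add (meas_A2.union meas_B) meas_A2 meas_B subset_rfl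
  have hE : cl (univ : Set E) MeasurableSet.univ ≤ 3 • ω + b := by
    calc cl (univ : Set E) MeasurableSet.univ
        ≤ ω + (ω + (ω + b)) :=
          s1.trans (add_le_add hκω (s2.trans (add_le_add le_rfl
            (s3.trans (add_le_add hαω le_rfl)))))
      _ = 3 • ω + b := by
          rw [show (3 : ℕ) = 1 + 1 + 1 from rfl, add_nsmul, add_nsmul, one_nsmul]; abel
  -- lower bound
  have hAB : Disjoint A2 B := by rw [B_eq]; exact disjoint_sdiff_right
  have t1 := add_le_cl meas_A2 meas_B (meas_A2.union meas_B) hAB subset_union_left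
    subset_union_right
  have t2 := add_le_cl meas_W1 (meas_A2.union meas_B) (MeasurableSet.univ (α := E)) (by
    rw [Set.disjoint_left]
    rintro x ⟨_, h1⟩ (h2 | h2)
    · have := h2.2.1; omega
    · have := h2.2.1; omega) (subset_univ _) (subset_univ _)
  have hE' : ω + (α + b) ≤ cl (univ : Set E) MeasurableSet.univ :=
    (add_le_add_right t1 _).trans t2
  have h0 : ∀ x : Ty E, 0 ≤ x := zero_le'
  calc 2 • cl (univ : Set E) MeasurableSet.univ
      ≤ 2 • (3 • ω + b) := nsmul_le_nsmul_right hE 2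
    _ = 6 • ω + (b + b) := by rw [nsmul_add, ← mul_nsmul', two_nsmul b]
    _ ≤ 6 • ω + ((β + 3 • ω) + (β + 3 • ω)) := by gcongr
    _ = 2 • β + 12 • ω := by
        rw [two_nsmul, show (12 : ℕ) = 6 + 3 + 3 from rfl, add_nsmul, add_nsmul]; abel
    _ ≤ (β + 3 • ω) + 12 • ω := by
        gcongr
        exact h2β.trans hbβ
    _ = β + 15 • ω := by rw [show (15 : ℕ) = 3 + 12 from rfl, add_nsmul, add_assoc]
    _ ≤ β + 16 • ω := by
        gcongr
        · exact h0 _
        · norm_num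
    _ ≤ β + (α + β + ω) := by gcongr
    _ = ω + (α + 2 • β) := by rw [two_nsmul]; abel
    _ ≤ ω + (α + b) := by gcongr
    _ ≤ cl (univ : Set E) MeasurableSet.univ := hE'

instance : Nonempty E := infinite_E.nonempty

/-- Two families of pieces that witness the paradox. -/
theorem paradox :
    ∃ (n m : ℕ) (A C : Fin n → Set E) (B D : Fin m → Set E)
          (f : Fin n → E → E) (g : Fin m → E → E),
        1 ≤ n ∧ 1 ≤ m ∧
        (∀ i j : Fin n, i ≠ j → Disjoint (A i) (A j)) ∧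
        (∀ i j : Fin m, i ≠ j → Disjoint (B i) (B j)) ∧
        (∀ (i : Fin n) (j : Fin m), Disjoint (A i) (B j)) ∧
        (∀ i : Fin n, MeasurableSet (A i)) ∧
        (∀ j : Fin m, MeasurableSet (B j)) ∧
        (∀ i : Fin n, Set.BijOn (f i) (A i) (C i) ∧
          ∀ x ∈ A i, ∀ y ∈ A i, dist (f i x) (f i y) = dist x y) ∧
        (∀ j : Fin m, Set.BijOn (g j) (B j) (D j) ∧
          ∀ x ∈ B j, ∀ y ∈ B j, dist (g j x) (g j y) = dist x y) ∧
        (⋃ i, C i) = Set.univ ∧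
        (⋃ j, D j) = Set.univ := by
  classical
  have h := two_univ
  rw [two_nsmul, ← fam_unit, ← fam_sum] at h
  obtain ⟨P, _, S, s, t, f, a1, a2, a3, a4, a5⟩ := LEf_of_le _ _ h
  have hinj : ∀ p, InjOn (f p) (S p) := by
    intro p x hx y hy hxy
    rw [← dist_eq_zero, ← a2 p x hx y hy, hxy, dist_self]
  have hcont : ∀ p, ContinuousOn (f p) (S p) := by
    intro p
    rw [Metric.continuousOn_iff]
    intro b hb ε hε
    exact ⟨ε, hε, fun a ha hab => by rw [a2 p a ha b hb]; exact hab⟩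
  have himg : ∀ p, MeasurableSet (f p '' S p) := fun p =>
    (a1 p).image_of_continuousOn_injOn (hcont p) (hinj p)
  have hdisj : ∀ p q, p ≠ q → Disjoint (f p '' S p) (f q '' S q) := by
    intro p q hpq
    rw [Set.disjoint_left]
    rintro _ ⟨x, hx, rfl⟩ ⟨y, hy, hyx⟩
    exact hpq (a5 p q x hx y hy rfl hyx.symm)
  let x0 : E := Classical.arbitrary E
  haveI : Nonempty E := ⟨x0⟩
  have hback : ∀ p, BijOn (Function.invFunOn (f p) (S p)) (f p '' S p) (S p) ∧
      ∀ x ∈ f p '' S p, ∀ y ∈ f p '' S p,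
        dist (Function.invFunOn (f p) (S p) x) (Function.invFunOn (f p) (S p) y) = dist x y := by
    intro p
    have hbij : BijOn (f p) (S p) (f p '' S p) := (hinj p).bijOn_image
    have hinv := hbij.invOn_invFunOn
    refine ⟨?_, ?_⟩
    · exact hbij.symm hinv.symm
    · rintro _ ⟨x, hx, rfl⟩ _ ⟨y, hy, rfl⟩
      rw [hinv.1 hx, hinv.1 hy, a2 p x hx y hy]
  let I : Type := {p : P // s p = Sum.inl ()}
  let J : Type := {p : P // s p = Sum.inr ()}
  let eI : Fin (Fintype.card I) ≃ I := (Fintype.equivFin I).symm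
  let eJ : Fin (Fintype.card J) ≃ J := (Fintype.equivFin J).symm
  have neI : Nonempty I := by
    obtain ⟨p, hp, _⟩ := a3 (Sum.inl ()) x0 (mem_univ _)
    exact ⟨⟨p, hp⟩⟩
  have neJ : Nonempty J := by
    obtain ⟨p, hp, _⟩ := a3 (Sum.inr ()) x0 (mem_univ _)
    exact ⟨⟨p, hp⟩⟩
  refine ⟨Fintype.card I, Fintype.card J, fun i => f (eI i).1 '' S (eI i).1, fun i => S (eI i).1,
    fun j => f (eJ j).1 '' S (eJ j).1, fun j => S (eJ j).1,
    fun i => Function.invFunOn (f (eI i).1) (S (eI i).1),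
    fun j => Function.invFunOn (f (eJ j).1) (S (eJ j).1),
    Fintype.card_pos, Fintype.card_pos, ?_, ?_, ?_, ?_, ?_, ?_, ?_, ?_, ?_⟩
  · intro i j hij
    apply hdisj
    intro h'
    exact hij (eI.injective (Subtype.ext h'))
  · intro i j hij
    apply hdisj
    intro h'
    exact hij (eJ.injective (Subtype.ext h'))
  · intro i j
    apply hdisj
    intro h'
    have h1 := (eI i).2
    have h2 := (eJ j).2
    rw [h', h2] at h1
    cases h1
  · intro i; exact himg _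
  · intro i; exact himg _
  · intro i; exact hback _
  · intro i; exact hback _
  · apply eq_univ_of_forall
    intro x
    obtain ⟨p, hp, hx⟩ := a3 (Sum.inl ()) x (mem_univ _)
    rw [mem_iUnion]
    refine ⟨eI.symm ⟨p, hp⟩, ?_⟩
    simp only [Equiv.apply_symm_apply]
    exact hx
  · apply eq_univ_of_forall
    intro x
    obtain ⟨p, hp, hx⟩ := a3 (Sum.inr ()) x (mem_univ _)
    rw [mem_iUnion]
    refine ⟨eJ.symm ⟨p, hp⟩, ?_⟩
    simp only [Equiv.apply_symm_apply]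
    exact hx

end Pool.Agent.W697.BP
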