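import Mathlib

set_option autoImplicit false
set_option linter.unusedSectionVars false

open Set

namespace Pool.Agent.W697.BP

/-! ### Piecewise congruences between finite families of Borel sets -/

variable {E : Type} [MetricSpace E] [MeasurableSpace E] [BorelSpace E]

/-- The family `A` embeds piecewise isometrically (finitely many Borel pieces) into the family `C`,
with pairwise disjoint images. -/
def LEf {ι κ : Type} (A : ι → Set E) (C : κ → Set E) : Prop :=
  ∃ (P : Type) (_ : Fintype P) (S : P → Set E) (s : P → ι) (t : P → κ) (f : P → E → E),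
    (∀ p, MeasurableSet (S p)) ∧
    (∀ p, ∀ x ∈ S p, ∀ y ∈ S p, dist (f p x) (f p y) = dist x y) ∧
    (∀ i, ∀ x ∈ A i, ∃ p, s p = i ∧ x ∈ S p) ∧
    (∀ p, ∀ x ∈ S p, f p x ∈ C (t p)) ∧
    (∀ p q, ∀ x ∈ S p, ∀ y ∈ S q, t p = t q → f p x = f q y → p = q)

lemma meas_preimage {S T : Set E} (hS : MeasurableSet S) (hT : MeasurableSet T) (f : E → E)
    (hf : ∀ x ∈ S, ∀ y ∈ S, dist (f x) (f y) = dist x y) :
    MeasurableSet {x | x ∈ S ∧ f x ∈ T} := by
  have hcont : Continuous (S.domRestrict f) := by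
    apply Isometry.continuous
    apply Isometry.of_dist_eq
    intro x y
    exact hf x.1 x.2 y.1 y.2
  have h1 : MeasurableSet (S.domRestrict f ⁻¹' T) := hcont.measurable hT
  have h2 := hS.subtype_image h1
  convert h2 using 1
  ext x
  constructor
  · rintro ⟨hx, hx'⟩
    exact ⟨⟨x, hx⟩, hx', rfl⟩
  · rintro ⟨⟨y, hy⟩, hy', rfl⟩
    exact ⟨hy, hy'⟩

lemma LEf.trans {ι κ ν : Type} {A : ι → Set E} {C : κ → Set E} {H : ν → Set E}
    (h1 : LEf A C) (h2 : LEf C H) : LEf A H := by
  obtain ⟨P, _, S, s, t, f, a1, a2, a3, a4, a5⟩ := h1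
  obtain ⟨P', _, S', s', t', f', b1, b2, b3, b4, b5⟩ := h2
  classical
  refine ⟨{pq : P × P' // t pq.1 = s' pq.2}, inferInstance,
    fun z => {x | x ∈ S z.1.1 ∧ f z.1.1 x ∈ S' z.1.2},
    fun z => s z.1.1, fun z => t' z.1.2, fun z x => f' z.1.2 (f z.1.1 x), ?_, ?_, ?_, ?_, ?_⟩
  · intro z
    exact meas_preimage (a1 _) (b1 _) _ (a2 _)
  · intro z x hx y hy
    rw [b2 _ _ hx.2 _ hy.2, a2 _ _ hx.1 _ hy.1]
  · intro i x hx
    obtain ⟨p, hp, hxp⟩ := a3 i x hx
    obtain ⟨q, hq, hxq⟩ := b3 (t p) (f p x) (a4 p x hxp)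
    exact ⟨⟨(p, q), hq.symm⟩, hp, hxp, hxq⟩
  · intro z x hx
    exact b4 _ _ hx.2
  · rintro ⟨⟨p, q⟩, hpq⟩ ⟨⟨p', q'⟩, hpq'⟩ x hx y hy ht hf
    simp only at hpq hpq' ht hf hx hy
    have hq : q = q' := b5 q q' _ hx.2 _ hy.2 ht hf
    subst hq
    have hff : f p x = f p' y := by
      rw [← dist_eq_zero, ← b2 q _ hx.2 _ hy.2, hf, dist_self]
    have hp : p = p' := a5 p p' x hx.1 y hy.1 (hpq.trans hpq'.symm) hff
    subst hp
    rfl

lemma LEf.add {ι κ ι' κ' : Type} {A : ι → Set E} {C : κ → Set E} {A' : ι' → Set E}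
    {C' : κ' → Set E} (h1 : LEf A C) (h2 : LEf A' C') :
    LEf (Sum.elim A A') (Sum.elim C C') := by
  obtain ⟨P, _, S, s, t, f, a1, a2, a3, a4, a5⟩ := h1
  obtain ⟨P', _, S', s', t', f', b1, b2, b3, b4, b5⟩ := h2
  refine ⟨P ⊕ P', inferInstance, Sum.elim S S', Sum.map s s', Sum.map t t', Sum.elim f f',
    ?_, ?_, ?_, ?_, ?_⟩
  · rintro (p | p)
    · exact a1 p
    · exact b1 p
  · rintro (p | p)
    · exact a2 p
    · exact b2 p
  · rintro (i | i) x hx
    · obtain ⟨p, hp, hxp⟩ := a3 i x hx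
      exact ⟨Sum.inl p, by simp [hp], hxp⟩
    · obtain ⟨p, hp, hxp⟩ := b3 i x hx
      exact ⟨Sum.inr p, by simp [hp], hxp⟩
  · rintro (p | p) x hx
    · exact a4 p x hx
    · exact b4 p x hx
  · rintro (p | p) (q | q) x hx y hy ht hf
    · rw [a5 p q x hx y hy (by simpa using ht) hf]
    · simp at ht
    · simp at ht
    · rw [b5 p q x hx y hy (by simpa using ht) hf]

lemma LEf.congr_left {ι ι' κ : Type} {A : ι → Set E} {A' : ι' → Set E} {C : κ → Set E}
    (e : ι ≃ ι') (he : ∀ i, A i = A' (e i)) (h : LEf A C) : LEf A' C := by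
  obtain ⟨P, _, S, s, t, f, a1, a2, a3, a4, a5⟩ := h
  refine ⟨P, inferInstance, S, fun p => e (s p), t, f, a1, a2, ?_, a4, a5⟩
  intro i x hx
  obtain ⟨p, hp, hxp⟩ := a3 (e.symm i) x (by rw [he]; simpa using hx)
  exact ⟨p, by simp [hp], hxp⟩

lemma exists_equiv {α κ κ' : Type} [Fintype κ] [Fintype κ'] (C : κ → α) (C' : κ' → α)
    (h : Finset.univ.val.map C = Finset.univ.val.map C') : ∃ e : κ ≃ κ', ∀ i, C i = C' (e i) := by
  classical
  have hc : ∀ a, Fintype.card {i // C i = a} = Fintype.card {j // C' j = a} := by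
    intro a
    have h1 : ∀ (μ : Type) (_ : Fintype μ) (G : μ → α),
        Fintype.card {i // G i = a} = (Finset.univ.val.map G).count a := by
      intro μ _ G
      rw [Multiset.count_map, Fintype.card_subtype]
      rw [Finset.card_def]
      congr 1
      simp only [Finset.filter_val]
      congr 1
      ext x
      constructor <;> exact fun h => h.symm
    rw [h1, h1, h]
  have e : ∀ a, {i // C i = a} ≃ {j // C' j = a} := fun a => Fintype.equivOfCardEq (hc a)
  exact ⟨Equiv.ofFiberEquiv e, fun i => (Equiv.ofFiberEquiv_map e i).symm⟩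

variable (E) in
/-- Borel sets. -/
abbrev MSet : Type := {A : Set E // MeasurableSet A}

variable (E) in
/-- Finite formal sums of Borel sets. -/
def Ty : Type := Multiset (MSet E)

noncomputable instance : AddCommMonoid (Ty E) := inferInstanceAs (AddCommMonoid (Multiset (MSet E)))

/-- The class of a family. -/
def fam {ι : Type} [Fintype ι] (A : ι → MSet E) : Ty E := Finset.univ.val.map A

/-- The class of a set. -/
def cl (A : Set E) (hA : MeasurableSet A) : Ty E := ({⟨A, hA⟩} : Multiset (MSet E))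

lemma fam_unit (A : Set E) (hA : MeasurableSet A) : fam (fun _ : Unit => (⟨A, hA⟩ : MSet E)) = cl A hA := by
  simp [fam, cl] <;> rfl

lemma fam_sum {ι κ : Type} [Fintype ι] [Fintype κ] (A : ι → MSet E) (C : κ → MSet E) :
    fam (Sum.elim A C) = fam A + fam C := by
  unfold fam
  have : (Finset.univ : Finset (ι ⊕ κ)).val =
      (Finset.univ : Finset ι).val.map Sum.inl + (Finset.univ : Finset κ).val.map Sum.inr := by
    rw [← Finset.univ_disjSum_univ]
    rfl
  rw [this, Multiset.map_add, Multiset.map_map, Multiset.map_map]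
  rfl

/-- Comparison of formal sums. -/
def LE' (L M : Ty E) : Prop :=
  ∃ (ι κ : Type) (_ : Fintype ι) (_ : Fintype κ) (A : ι → MSet E) (C : κ → MSet E),
    fam A = L ∧ fam C = M ∧ LEf (fun i => (A i).1) (fun k => (C k).1)

lemma exists_fam (L : Ty E) : ∃ (ι : Type) (_ : Fintype ι) (A : ι → MSet E), fam A = L := by
  induction L using Quotient.inductionOn with
  | _ l =>
    refine ⟨Fin l.length, inferInstance, fun i => l.get i, ?_⟩
    unfold fam
    have : (Finset.univ : Finset (Fin l.length)).val = (List.finRange l.length : Multiset _) := rfl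
    rw [this]
    change Multiset.map (fun i => l.get i) (List.finRange l.length : Multiset (Fin l.length)) = (l : Multiset (MSet E))
    rw [Multiset.map_coe, List.map_get_finRange]

lemma LEf.refl {ι : Type} [Fintype ι] (A : ι → MSet E) :
    LEf (fun i => (A i).1) (fun i => (A i).1) := by
  refine ⟨ι, inferInstance, fun i => (A i).1, id, id, fun _ x => x, fun i => (A i).2, ?_, ?_, ?_, ?_⟩
  · intro p x _ y _; rfl
  · intro i x hx; exact ⟨i, rfl, hx⟩
  · intro p x hx; exact hx
  · intro p q x _ y _ h _; exact h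

lemma LE'.refl (L : Ty E) : LE' L L := by
  obtain ⟨ι, _, A, hA⟩ := exists_fam L
  exact ⟨ι, ι, inferInstance, inferInstance, A, A, hA, hA, LEf.refl A⟩

lemma LE'.trans {L M N : Ty E} (h1 : LE' L M) (h2 : LE' M N) : LE' L N := by
  obtain ⟨ι, κ, _, _, A, C, hA, hC, h⟩ := h1
  obtain ⟨κ', ν, _, _, C', H, hC', hH, h'⟩ := h2
  obtain ⟨e, he⟩ := exists_equiv C' C (hC'.trans hC.symm)
  refine ⟨ι, ν, inferInstance, inferInstance, A, H, hA, hH, h.trans ?_⟩
  exact h'.congr_left e (fun i => by rw [he])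

lemma LE'.add {L M L' M' : Ty E} (h1 : LE' L M) (h2 : LE' L' M') : LE' (L + L') (M + M') := by
  obtain ⟨ι, κ, _, _, A, C, hA, hC, h⟩ := h1
  obtain ⟨ι', κ', _, _, A', C', hA', hC', h'⟩ := h2
  refine ⟨ι ⊕ ι', κ ⊕ κ', inferInstance, inferInstance, Sum.elim A A', Sum.elim C C', ?_, ?_, ?_⟩
  · rw [fam_sum, hA, hA']
  · rw [fam_sum, hC, hC']
  · have := h.add h'
    convert this using 1
    · ext (i | i) <;> rfl
    · ext (i | i) <;> rfl

instance : Preorder (Ty E) where
  le := LE'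
  le_refl := LE'.refl
  le_trans _ _ _ := LE'.trans

instance : IsOrderedAddMonoid (Ty E) where
  add_le_add_left _ _ h c := LE'.add h (LE'.refl c)

lemma le_def {L M : Ty E} : L ≤ M ↔ LE' L M := Iff.rfl

/-- An isometric embedding gives an inequality. -/
lemma cl_le {A C : Set E} (hA : MeasurableSet A) (hC : MeasurableSet C)
    (h : ∃ f : E → E, (∀ x ∈ A, f x ∈ C) ∧ ∀ x ∈ A, ∀ y ∈ A, dist (f x) (f y) = dist x y) :
    cl A hA ≤ cl C hC := by
  obtain ⟨f, h1, h2⟩ := h
  rw [le_def, ← fam_unit, ← fam_unit]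
  refine ⟨Unit, Unit, inferInstance, inferInstance, _, _, rfl, rfl, ?_⟩
  refine ⟨Unit, inferInstance, fun _ => A, id, id, fun _ => f, fun _ => hA, fun _ => h2, ?_, ?_, ?_⟩
  · intro i x hx; exact ⟨i, rfl, hx⟩
  · intro p x hx; exact h1 x hx
  · intro p q x _ y _ _ _; rfl

lemma cl_mono {A C : Set E} (hA : MeasurableSet A) (hC : MeasurableSet C) (h : A ⊆ C) :
    cl A hA ≤ cl C hC := cl_le hA hC ⟨id, h, fun _ _ _ _ => rfl⟩

lemma zero_le' (L : Ty E) : 0 ≤ L := by
  obtain ⟨ι, _, A, hA⟩ := exists_fam L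
  rw [le_def]
  refine ⟨Empty, ι, inferInstance, inferInstance, Empty.elim, A, ?_, hA, ?_⟩
  · simp [fam] <;> rfl
  · refine ⟨Empty, inferInstance, Empty.elim, Empty.elim, Empty.elim, Empty.elim, ?_, ?_, ?_, ?_, ?_⟩
    · intro p; exact p.elim
    · intro p; exact p.elim
    · intro p; exact p.elim
    · intro p; exact p.elim
    · intro p; exact p.elim

/-- Covering by two sets. -/
lemma cl_le_add {A B C : Set E} (hA : MeasurableSet A) (hB : MeasurableSet B)
    (hC : MeasurableSet C) (h : A ⊆ B ∪ C) : cl A hA ≤ cl B hB + cl C hC := by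
  rw [le_def, ← fam_unit, ← fam_unit, ← fam_unit, ← fam_sum]
  refine ⟨Unit, Unit ⊕ Unit, inferInstance, inferInstance, _, _, rfl, rfl, ?_⟩
  refine ⟨Unit ⊕ Unit, inferInstance, Sum.elim (fun _ => A ∩ B) (fun _ => A \ B), fun _ => (), id,
    fun _ x => x, ?_, ?_, ?_, ?_, ?_⟩
  · rintro (p | p)
    · exact hA.inter hB
    · exact hA.diff hB
  · intro p x _ y _; rfl
  · intro i x hx
    by_cases hb : x ∈ B
    · exact ⟨Sum.inl (), rfl, hx, hb⟩
    · exact ⟨Sum.inr (), rfl, hx, hb⟩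
  · rintro (p | p) x hx
    · exact hx.2
    · exact (h hx.1).resolve_left hx.2
  · intro p q x _ y _ h _; exact h

/-- Packing of two sets. -/
lemma add_le_cl {A B C : Set E} (hA : MeasurableSet A) (hB : MeasurableSet B)
    (hC : MeasurableSet C) (hd : Disjoint A B) (h1 : A ⊆ C) (h2 : B ⊆ C) :
    cl A hA + cl B hB ≤ cl C hC := by
  rw [le_def, ← fam_unit, ← fam_unit, ← fam_unit, ← fam_sum]
  refine ⟨Unit ⊕ Unit, Unit, inferInstance, inferInstance, _, _, rfl, rfl, ?_⟩
  refine ⟨Unit ⊕ Unit, inferInstance, Sum.elim (fun _ => A) (fun _ => B), id, fun _ => (),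
    fun _ x => x, ?_, ?_, ?_, ?_, ?_⟩
  · rintro (p | p)
    · exact hA
    · exact hB
  · intro p x _ y _; rfl
  · rintro (i | i) x hx
    · exact ⟨Sum.inl (), rfl, hx⟩
    · exact ⟨Sum.inr (), rfl, hx⟩
  · rintro (p | p) x hx
    · exact h1 hx
    · exact h2 hx
  · rintro (p | p) (q | q) x hx y hy _ h
    · rfl
    · have h' : x = y := h
      subst h'
      exact absurd hy (Set.disjoint_left.1 hd hx)
    · have h' : x = y := h
      subst h'
      exact absurd hx (Set.disjoint_left.1 hd hy)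
    · rfl

/-- From a comparison of formal sums to a comparison of families. -/
lemma LEf_of_le {ι κ : Type} [Fintype ι] [Fintype κ] (A : ι → MSet E) (C : κ → MSet E)
    (h : fam A ≤ fam C) : LEf (fun i => (A i).1) (fun k => (C k).1) := by
  rw [le_def] at h
  obtain ⟨ι', κ', _, _, A', C', hA, hC, h⟩ := h
  obtain ⟨e, he⟩ := exists_equiv A' A hA
  obtain ⟨e', he'⟩ := exists_equiv C C' hC.symm
  have h1 := h.congr_left (A' := fun i => (A i).1) e (fun i => by rw [he])
  obtain ⟨P, _, S, s, t, f, a1, a2, a3, a4, a5⟩ := h1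
  refine ⟨P, inferInstance, S, s, fun p => e'.symm (t p), f, a1, a2, a3, ?_, ?_⟩
  · intro p x hx
    have := a4 p x hx
    simp only [he', Equiv.apply_symm_apply]
    exact this
  · intro p q x hx y hy ht hf
    exact a5 p q x hx y hy (by simpa using ht) hf

end Pool.Agent.W697.BP
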